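import Mathlib

set_option autoImplicit false

open Filter Topology Cardinal
open scoped ENNReal

universe u v w

namespace Pool.Agent.Results.MP_0564d2_an.UniversalInjectivity

/-! ### Ultrafilters -/

/-- An ultrafilter is countably incomplete if it has a decreasing sequence of members
with empty intersection. -/
def CountablyIncomplete {I : Type u} (U : Ultrafilter I) : Prop :=
  ∃ J : ℕ → Set I, Antitone J ∧ (∀ n, J n ∈ U) ∧ ⋂ n, J n = ∅

/-- `κ`-good ultrafilters: for every set `S` with `#S < κ`, every antitone map from the finite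
subsets of `S` to `U` is dominated from below by a multiplicative one. -/
def IsGood {I : Type u} (U : Ultrafilter I) (κ : Cardinal.{u}) : Prop :=
  ∀ (S : Type u) [DecidableEq S], #S < κ →
    ∀ f : Finset S → Set I, (∀ A, f A ∈ U) → (∀ A B : Finset S, A ⊆ B → f B ⊆ f A) →
      ∃ g : Finset S → Set I, (∀ A, g A ∈ U) ∧
        (∀ A B : Finset S, g (A ∪ B) = g A ∩ g B) ∧ ∀ A, g A ⊆ f A

/-! ### Lindenstrauss spaces -/

/-- The Banach-Mazur distance `inf ‖φ‖ * ‖φ⁻¹‖` over all linear homeomorphisms `φ : V → W`. -/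
noncomputable def bmDist (V : Type v) (W : Type w) [NormedAddCommGroup V] [NormedSpace ℝ V]
    [NormedAddCommGroup W] [NormedSpace ℝ W] : ℝ :=
  sInf {r : ℝ | ∃ φ : V ≃L[ℝ] W, r = ‖(φ : V →L[ℝ] W)‖ * ‖(φ.symm : W →L[ℝ] V)‖}

/-- Lindenstrauss spaces: for every `λ > 1`, each finite-dimensional subspace lies in a
finite-dimensional subspace `G` with Banach-Mazur distance at most `λ` to `ℓ_∞^{dim G}`
(the space `Fin (dim G) → ℝ` carries the sup norm). -/
def IsLindenstrauss (E : Type u) [NormedAddCommGroup E] [NormedSpace ℝ E] : Prop :=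
  ∀ lam : ℝ, 1 < lam → ∀ F : Submodule ℝ E, FiniteDimensional ℝ F →
    ∃ G : Submodule ℝ E, F ≤ G ∧ FiniteDimensional ℝ G ∧
      bmDist G (Fin (Module.finrank ℝ G) → ℝ) ≤ lam

/-! ### Universal injectivity -/

/-- The density character: the least cardinality of a dense subset. -/
noncomputable def dens (Y : Type u) [TopologicalSpace Y] : Cardinal.{u} :=
  sInf {c : Cardinal.{u} | ∃ S : Set Y, Dense S ∧ #S = c}

/-- Universally `(1, κ)`-injective: for every Banach space `Z` and every closed subspace `Y ⊆ Z`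
with `dens Y < κ`, each operator `t : Y → E` extends to an operator `T : Z → E`
with `‖T‖ = ‖t‖`. -/
def UniversallyOneInjective (κ : Cardinal.{u}) (E : Type u) [NormedAddCommGroup E]
    [NormedSpace ℝ E] : Prop :=
  ∀ (Z : Type u) [NormedAddCommGroup Z] [NormedSpace ℝ Z] [CompleteSpace Z]
    (Y : Submodule ℝ Z), IsClosed (Y : Set Z) → dens Y < κ →
      ∀ t : Y →L[ℝ] E, ∃ T : Z →L[ℝ] E, (∀ y : Y, T y = t y) ∧ ‖T‖ = ‖t‖

/-! ### Banach ultraproducts -/

section Ultraproduct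

variable {I : Type u} (U : Ultrafilter I) (X : I → Type u)
  [∀ i, NormedAddCommGroup (X i)] [∀ i, NormedSpace ℝ (X i)]

/-- The subspace of `ℓ_∞(I; X_i)` of the families whose norms tend to `0` along `U`. -/
def nullSubspace : Submodule ℝ (lp X ∞) where
  carrier := {x | Tendsto (fun i => ‖x i‖) U (𝓝 0)}
  zero_mem' := by simp
  add_mem' := by
    intro a b ha hb
    have ha' : Tendsto (fun i => ‖a i‖) U (𝓝 0) := ha
    have hb' : Tendsto (fun i => ‖b i‖) U (𝓝 0) := hb
    have h := ha'.add hb'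
    simp only [add_zero] at h
    refine squeeze_zero (fun i => norm_nonneg _) (fun i => ?_) h
    simpa using norm_add_le (a i) (b i)
  smul_mem' := by
    intro c x hx
    have hx' : Tendsto (fun i => ‖x i‖) U (𝓝 0) := hx
    have h := hx'.const_mul ‖c‖
    simp only [mul_zero] at h
    refine h.congr (fun i => ?_)
    simp [norm_smul]

theorem mem_nullSubspace {x : lp X ∞} :
    x ∈ nullSubspace U X ↔ Tendsto (fun i => ‖x i‖) U (𝓝 0) := Iff.rfl

instance isClosed_nullSubspace : IsClosed (nullSubspace U X : Set (lp X ∞)) := by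
  refine isClosed_of_closure_subset ?_
  intro x hx
  rw [Metric.mem_closure_iff] at hx
  change Tendsto (fun i => ‖x i‖) U (𝓝 0)
  rw [Metric.tendsto_nhds]
  intro ε hε
  obtain ⟨y, hy, hxy⟩ := hx (ε / 2) (half_pos hε)
  have hy' : Tendsto (fun i => ‖y i‖) U (𝓝 0) := hy
  rw [Metric.tendsto_nhds] at hy'
  filter_upwards [hy' (ε / 2) (half_pos hε)] with i hi
  have h1 : ‖(x - y) i‖ ≤ ‖x - y‖ := lp.norm_apply_le_norm ENNReal.top_ne_zero (x - y) i
  rw [dist_eq_norm] at hxy
  simp only [dist_zero_right, norm_norm] at *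
  have h2 : ‖x i‖ ≤ ‖(x - y) i‖ + ‖y i‖ := by
    have : x i = (x - y) i + y i := by simp
    calc ‖x i‖ = ‖(x - y) i + y i‖ := by rw [← this]
      _ ≤ _ := norm_add_le _ _
  linarith

/-- The Banach ultraproduct `[X_i]_U = ℓ_∞(I; X_i) / {x : lim_U ‖x_i‖ = 0}` with the quotient
norm (which is `lim_U ‖x_i‖`, see `tendsto_norm_mk`). -/
def BanachUltraproduct : Type u := lp X ∞ ⧸ nullSubspace U X

noncomputable instance : NormedAddCommGroup (BanachUltraproduct U X) :=
  Submodule.Quotient.normedAddCommGroup (nullSubspace U X)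

noncomputable instance : NormedSpace ℝ (BanachUltraproduct U X) :=
  Submodule.Quotient.normedSpace (nullSubspace U X) ℝ

/-- The class of a bounded family in the ultraproduct. -/
noncomputable def mk : lp X ∞ →ₗ[ℝ] BanachUltraproduct U X := (nullSubspace U X).mkQ

theorem norm_mk_le (x : lp X ∞) : ‖mk U X x‖ ≤ ‖x‖ :=
  Submodule.Quotient.norm_mk_le (nullSubspace U X) x

theorem exists_mk_eq_norm_lt (e : BanachUltraproduct U X) {ε : ℝ} (hε : 0 < ε) :
    ∃ x : lp X ∞, mk U X x = e ∧ ‖x‖ < ‖e‖ + ε :=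
  Submodule.Quotient.norm_mk_lt (S := nullSubspace U X) e hε

theorem mk_surjective : Function.Surjective (mk U X) :=
  Submodule.mkQ_surjective (nullSubspace U X)

theorem mk_eq_zero {x : lp X ∞} : mk U X x = 0 ↔ Tendsto (fun i => ‖x i‖) U (𝓝 0) :=
  Submodule.Quotient.mk_eq_zero (nullSubspace U X)

theorem mk_eq_mk {x y : lp X ∞} (h : Tendsto (fun i => ‖x i - y i‖) U (𝓝 0)) :
    mk U X x = mk U X y := by
  rw [← sub_eq_zero, ← map_sub, mk_eq_zero]
  simpa using h

theorem tendsto_of_mk_eq_mk {x y : lp X ∞} (h : mk U X x = mk U X y) :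
    Tendsto (fun i => ‖x i - y i‖) U (𝓝 0) := by
  rw [← sub_eq_zero, ← map_sub, mk_eq_zero] at h
  simpa using h

/-- The norm of the ultraproduct is the limit of the norms along the ultrafilter. -/
theorem tendsto_norm_mk (x : lp X ∞) : Tendsto (fun i => ‖x i‖) U (𝓝 ‖mk U X x‖) := by
  classical
  have hb : ∀ i, ‖x i‖ ≤ ‖x‖ := fun i => lp.norm_apply_le_norm ENNReal.top_ne_zero x i
  have hK : ∀ᶠ i in (U : Filter I), ‖x i‖ ∈ Set.Icc (0 : ℝ) ‖x‖ :=
    Filter.Eventually.of_forall (fun i => ⟨norm_nonneg _, hb i⟩)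
  obtain ⟨a, ha, hlim⟩ := (isCompact_Icc : IsCompact (Set.Icc (0 : ℝ) ‖x‖)).ultrafilter_le_nhds
    (U.map (fun i => ‖x i‖)) (by rw [le_principal_iff]; exact hK)
  have hlim' : Tendsto (fun i => ‖x i‖) U (𝓝 a) := hlim
  have h1 : a ≤ ‖mk U X x‖ := by
    refine le_of_forall_pos_le_add (fun ε hε => ?_)
    obtain ⟨m, hm, hmn⟩ := exists_mk_eq_norm_lt U X (mk U X x) hε
    have h2 := tendsto_of_mk_eq_mk U X (x := x) (y := m) hm.symm
    have h3 : Tendsto (fun i => ‖m‖ + ‖x i - m i‖) U (𝓝 (‖m‖ + 0)) := h2.const_add _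
    rw [add_zero] at h3
    have h4 : a ≤ ‖m‖ := by
      refine le_of_tendsto_of_tendsto' hlim' h3 (fun i => ?_)
      have h5 : ‖m i‖ ≤ ‖m‖ := lp.norm_apply_le_norm ENNReal.top_ne_zero m i
      calc ‖x i‖ = ‖m i + (x i - m i)‖ := by congr 1; abel
        _ ≤ ‖m i‖ + ‖x i - m i‖ := norm_add_le _ _
        _ ≤ _ := by gcongr
    linarith
  have h2 : ‖mk U X x‖ ≤ a := by
    refine le_of_forall_pos_le_add (fun ε hε => ?_)
    have hev : ∀ᶠ i in (U : Filter I), ‖x i‖ < a + ε :=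
      hlim'.eventually_lt_const (by linarith)
    set y0 : PreLp X := fun i => if ‖x i‖ < a + ε then x i else 0 with hy0
    have hy0b : ∀ i, ‖y0 i‖ ≤ a + ε := by
      intro i
      have ha0 := ha.1
      by_cases h : ‖x i‖ < a + ε
      · simp only [hy0, h, if_true]; exact h.le
      · simp only [hy0, h, if_false, norm_zero]; linarith
    have hmem : y0 ∈ lp X ∞ := memℓp_infty ⟨a + ε, by rintro _ ⟨i, rfl⟩; exact hy0b i⟩
    set y : lp X ∞ := ⟨y0, hmem⟩ with hy
    have hyn : ‖y‖ ≤ a + ε := lp.norm_le_of_forall_le (by have := ha.1; linarith) hy0b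
    have hxy : mk U X x = mk U X y := by
      refine mk_eq_mk U X ?_
      refine tendsto_const_nhds.congr' ?_
      filter_upwards [hev] with i hi
      change (0 : ℝ) = ‖x i - y0 i‖
      simp [hy0, hi]
    rw [hxy]
    exact (norm_mk_le U X y).trans hyn
  have : a = ‖mk U X x‖ := le_antisymm h1 h2
  rw [← this]
  exact hlim'

/-- Local lifting: the inclusion of a finite-dimensional subspace of the ultraproduct lifts to a
linear map to `ℓ_∞(I; X_i)` whose coordinates have norm at most `1 + δ` for `U`-many indices. -/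
theorem exists_lift (G : Submodule ℝ (BanachUltraproduct U X)) [FiniteDimensional ℝ G]
    {δ : ℝ} (hδ : 0 < δ) :
    ∃ L : G →ₗ[ℝ] lp X ∞, (∀ g : G, mk U X (L g) = g) ∧
      ∀ᶠ i in (U : Filter I), ∀ g : G, ‖L g i‖ ≤ (1 + δ) * ‖g‖ := by
  classical
  let b := Module.finBasis ℝ G
  have hsurj : ∀ e : BanachUltraproduct U X, ∃ x : lp X ∞, mk U X x = e :=
    mk_surjective U X
  choose rep hrep using hsurj
  let L : G →ₗ[ℝ] lp X ∞ := b.constr ℝ (fun j => rep (b j : BanachUltraproduct U X))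
  have hL : ∀ g : G, mk U X (L g) = g := by
    intro g
    have : (mk U X).comp L = G.subtype := by
      refine b.ext (fun j => ?_)
      simp only [LinearMap.comp_apply, L, Module.Basis.constr_basis]
      exact hrep _
    exact LinearMap.congr_fun this g
  refine ⟨L, hL, ?_⟩
  let Lc : G →L[ℝ] lp X ∞ := LinearMap.toContinuousLinearMap L
  have hLc : ∀ g, Lc g = L g := fun g => rfl
  by_contra hcon
  have hcon' : ∀ᶠ i in (U : Filter I), ∃ g : G, (1 + δ) * ‖g‖ < ‖L g i‖ := by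
    rw [← Ultrafilter.eventually_not] at hcon
    filter_upwards [hcon] with i hi
    push Not at hi
    exact hi
  -- normalise
  have hcon2 : ∀ᶠ i in (U : Filter I), ∃ g : G, ‖g‖ ≤ 1 ∧ (1 + δ) ≤ ‖L g i‖ := by
    filter_upwards [hcon'] with i hi
    obtain ⟨g, hg⟩ := hi
    have hg0 : g ≠ 0 := by
      rintro rfl
      simp at hg
    have hgn : 0 < ‖g‖ := norm_pos_iff.mpr hg0
    refine ⟨(‖g‖⁻¹) • g, ?_, ?_⟩
    · rw [norm_smul, norm_inv, norm_norm, inv_mul_cancel₀ hgn.ne']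
    · have : L ((‖g‖⁻¹) • g) i = (‖g‖⁻¹) • (L g i) := by
        rw [map_smul]; rfl
      rw [this, norm_smul, norm_inv, norm_norm, ← div_eq_inv_mul, le_div_iff₀ hgn]
      exact hg.le
  let γ : I → G := fun i => if h : ∃ g : G, ‖g‖ ≤ 1 ∧ (1 + δ) ≤ ‖L g i‖ then h.choose else 0
  have hγ1 : ∀ i, γ i ∈ Metric.closedBall (0 : G) 1 := by
    intro i
    simp only [γ]
    split_ifs with h
    · simpa using h.choose_spec.1
    · simp
  have hγ2 : ∀ᶠ i in (U : Filter I), (1 + δ) ≤ ‖L (γ i) i‖ := by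
    filter_upwards [hcon2] with i hi
    simp only [γ, dif_pos hi]
    exact hi.choose_spec.2
  have hpr : ProperSpace G := FiniteDimensional.proper ℝ G
  have hK : ∀ᶠ i in (U : Filter I), γ i ∈ Metric.closedBall (0 : G) 1 :=
    Filter.Eventually.of_forall hγ1
  obtain ⟨g0, hg0, hlim⟩ := (isCompact_closedBall (0 : G) 1).ultrafilter_le_nhds (U.map γ) (by
      rw [le_principal_iff]
      exact hK)
  have hlim' : Tendsto γ U (𝓝 g0) := hlim
  have hg0' : ‖g0‖ ≤ 1 := by simpa using hg0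
  have h1 : Tendsto (fun i => ‖γ i - g0‖) U (𝓝 0) := by
    have := (hlim'.sub_const g0).norm
    simpa using this
  have h2 : Tendsto (fun i => ‖L g0 i‖ + ‖Lc‖ * ‖γ i - g0‖) U (𝓝 (‖g0‖ + ‖Lc‖ * 0)) := by
    refine Tendsto.add ?_ (h1.const_mul _)
    have := tendsto_norm_mk U X (L g0)
    rw [hL g0] at this
    exact this
  rw [mul_zero, add_zero] at h2
  have h3 : ∀ᶠ i in (U : Filter I), ‖L (γ i) i‖ < 1 + δ := by
    filter_upwards [h2.eventually_lt_const (show ‖g0‖ < 1 + δ by linarith)] with i hi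
    have h4 : L (γ i) i = L g0 i + (L (γ i - g0)) i := by
      have : L (γ i) = L g0 + L (γ i - g0) := by rw [← map_add]; congr 1; abel
      rw [this]; rfl
    have h5 : ‖(L (γ i - g0)) i‖ ≤ ‖Lc‖ * ‖γ i - g0‖ :=
      (lp.norm_apply_le_norm ENNReal.top_ne_zero (L (γ i - g0)) i).trans (Lc.le_opNorm _)
    calc ‖L (γ i) i‖ = ‖L g0 i + (L (γ i - g0)) i‖ := by rw [h4]
      _ ≤ ‖L g0 i‖ + ‖(L (γ i - g0)) i‖ := norm_add_le _ _
      _ < 1 + δ := by linarith
  obtain ⟨i, hi1, hi2⟩ := (hγ2.and h3).exists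
  linarith

end Ultraproduct

/-! ### Local extension into Lindenstrauss spaces -/

/-- If `E` is a Lindenstrauss space, `P` a finite-dimensional subspace of a normed space `Z` and
`t : P → E` an operator, then `t` has an extension to all of `Z` of norm at most `‖t‖ + ε` with
values in a finite-dimensional subspace of `E`. -/
theorem exists_local_extension {E : Type u} [NormedAddCommGroup E] [NormedSpace ℝ E]
    (hE : IsLindenstrauss E) {Z : Type u} [NormedAddCommGroup Z] [NormedSpace ℝ Z]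
    (P : Submodule ℝ Z) [FiniteDimensional ℝ P] (t : P →L[ℝ] E) {ε : ℝ} (hε : 0 < ε) :
    ∃ G : Submodule ℝ E, FiniteDimensional ℝ G ∧ ∃ Φ : Z →L[ℝ] G,
      (∀ p : P, (Φ p : E) = t p) ∧ ‖Φ‖ ≤ ‖t‖ + ε := by
  have ht1 : 0 < ‖t‖ + 1 := by positivity
  have hδ : 0 < ε / (‖t‖ + 1) := by positivity
  obtain ⟨G, hFG, hG, hbm⟩ := hE (1 + ε / (‖t‖ + 1) / 2) (by linarith) (LinearMap.range t.toLinearMap)
    inferInstance
  refine ⟨G, hG, ?_⟩
  have hne : {r : ℝ | ∃ φ : G ≃L[ℝ] (Fin (Module.finrank ℝ G) → ℝ),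
      r = ‖(φ : G →L[ℝ] (Fin (Module.finrank ℝ G) → ℝ))‖ *
        ‖(φ.symm : (Fin (Module.finrank ℝ G) → ℝ) →L[ℝ] G)‖}.Nonempty := by
    let φ : G ≃L[ℝ] (Fin (Module.finrank ℝ G) → ℝ) :=
      ContinuousLinearEquiv.ofFinrankEq (by simp)
    exact ⟨_, φ, rfl⟩
  obtain ⟨r, ⟨φ, hr⟩, hlt⟩ := exists_lt_of_csInf_lt hne
    (show sInf _ < 1 + ε / (‖t‖ + 1) from lt_of_le_of_lt hbm (by linarith))
  -- the operator into `G`
  have hmem : ∀ p : P, t p ∈ G := fun p => hFG ⟨p, rfl⟩
  let tG : P →L[ℝ] G := t.codRestrict G hmem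
  have htG : ‖tG‖ ≤ ‖t‖ := by
    refine ContinuousLinearMap.opNorm_le_bound _ (norm_nonneg t) (fun p => ?_)
    exact t.le_opNorm p
  let ψ : P →L[ℝ] (Fin (Module.finrank ℝ G) → ℝ) := (φ : G →L[ℝ] _).comp tG
  have hψ : ‖ψ‖ ≤ ‖(φ : G →L[ℝ] (Fin (Module.finrank ℝ G) → ℝ))‖ * ‖t‖ :=
    (ContinuousLinearMap.opNorm_comp_le _ _).trans (by gcongr)
  have hext : ∀ j, ∃ g : StrongDual ℝ Z, (∀ p : P, g p = ψ p j) ∧ ‖g‖ ≤ ‖ψ‖ := by
    intro j
    obtain ⟨g, hg1, hg2⟩ := exists_extension_norm_eq P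
      ((ContinuousLinearMap.proj (R := ℝ) (φ := fun _ : Fin (Module.finrank ℝ G) => ℝ) j).comp ψ)
    refine ⟨g, fun p => by rw [hg1]; rfl, ?_⟩
    rw [hg2]
    refine ContinuousLinearMap.opNorm_le_bound _ (norm_nonneg ψ) (fun p => ?_)
    exact (norm_le_pi_norm (ψ p) j).trans (ψ.le_opNorm p)
  choose g hg1 hg2 using hext
  let Ψ : Z →L[ℝ] (Fin (Module.finrank ℝ G) → ℝ) := ContinuousLinearMap.pi g
  have hΨ : ‖Ψ‖ ≤ ‖ψ‖ := by
    refine ContinuousLinearMap.opNorm_le_bound _ (norm_nonneg ψ) (fun z => ?_)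
    rw [pi_norm_le_iff_of_nonneg (by positivity)]
    intro j
    calc ‖Ψ z j‖ = ‖g j z‖ := rfl
      _ ≤ ‖g j‖ * ‖z‖ := (g j).le_opNorm z
      _ ≤ ‖ψ‖ * ‖z‖ := by gcongr; exact hg2 j
  refine ⟨(φ.symm : (Fin (Module.finrank ℝ G) → ℝ) →L[ℝ] G).comp Ψ, ?_, ?_⟩
  · intro p
    have h1 : Ψ p = φ (tG p) := by
      ext j
      exact hg1 j p
    change ((φ.symm (Ψ p) : G) : E) = t p
    rw [h1, φ.symm_apply_apply]
    rfl
  · calc ‖(φ.symm : (Fin (Module.finrank ℝ G) → ℝ) →L[ℝ] G).comp Ψ‖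
        ≤ ‖(φ.symm : (Fin (Module.finrank ℝ G) → ℝ) →L[ℝ] G)‖ * ‖Ψ‖ :=
          ContinuousLinearMap.opNorm_comp_le _ _
      _ ≤ ‖(φ.symm : (Fin (Module.finrank ℝ G) → ℝ) →L[ℝ] G)‖ *
          (‖(φ : G →L[ℝ] (Fin (Module.finrank ℝ G) → ℝ))‖ * ‖t‖) := by
          gcongr; exact hΨ.trans hψ
      _ = r * ‖t‖ := by rw [hr]; ring
      _ ≤ (1 + ε / (‖t‖ + 1)) * ‖t‖ := by gcongr
      _ = ‖t‖ + ε * (‖t‖ / (‖t‖ + 1)) := by ring
      _ ≤ ‖t‖ + ε * 1 := by
          gcongr
          rw [div_le_one ht1]; linarith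
      _ = ‖t‖ + ε := by ring

/-- Local step: over finitely many vectors of `Y` the operator `t : Y → [X_i]_U` is approximated,
for `U`-many `i`, by the restriction of an operator `Z → X_i` of norm at most `‖t‖ + ε`. -/
theorem eventually_exists_operator {I : Type u} (U : Ultrafilter I) (X : I → Type u)
    [∀ i, NormedAddCommGroup (X i)] [∀ i, NormedSpace ℝ (X i)]
    (hL : IsLindenstrauss (BanachUltraproduct U X))
    {Z : Type u} [NormedAddCommGroup Z] [NormedSpace ℝ Z] (Y : Submodule ℝ Z)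
    (t : Y →L[ℝ] BanachUltraproduct U X) {J : Type u} (vec : J → Y) (z : J → lp X ∞)
    (hz : ∀ a, mk U X (z a) = t (vec a)) (A : Finset J) {ε : ℝ} (hε : 0 < ε) :
    ∀ᶠ i in (U : Filter I), ∃ R : Z →L[ℝ] X i, ‖R‖ ≤ ‖t‖ + ε ∧
      ∀ a ∈ A, ‖R (vec a) - z a i‖ ≤ ε := by
  classical
  -- the span of the finitely many vectors, inside `Z`
  let P : Submodule ℝ Z := Submodule.span ℝ ((fun a => (vec a : Z)) '' (A : Set J))
  have hPfin : FiniteDimensional ℝ P :=
    FiniteDimensional.span_of_finite ℝ (A.finite_toSet.image _)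
  have hPY : P ≤ Y := by
    refine Submodule.span_le.mpr ?_
    rintro _ ⟨a, _, rfl⟩
    exact (vec a).2
  let inc : P →L[ℝ] Y := (P.subtypeL).codRestrict Y (fun p => hPY p.2)
  have hinc : ‖inc‖ ≤ 1 := by
    refine ContinuousLinearMap.opNorm_le_bound _ zero_le_one (fun p => ?_)
    rw [one_mul]
    exact le_refl ‖p‖
  let tP : P →L[ℝ] BanachUltraproduct U X := t.comp inc
  have htP : ‖tP‖ ≤ ‖t‖ := by
    calc ‖tP‖ ≤ ‖t‖ * ‖inc‖ := ContinuousLinearMap.opNorm_comp_le _ _
      _ ≤ ‖t‖ * 1 := by gcongr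
      _ = ‖t‖ := mul_one _
  obtain ⟨G, hG, Φ, hΦ1, hΦ2⟩ := exists_local_extension hL P tP (half_pos hε)
  have ht1 : 0 < ‖t‖ + ε / 2 := by positivity
  set δ : ℝ := (ε / 2) / (‖t‖ + ε / 2) with hδdef
  have hδ : 0 < δ := by positivity
  obtain ⟨L, hL1, hL2⟩ := exists_lift U X G hδ
  have hA : ∀ᶠ i in (U : Filter I), ∀ a ∈ A, ∀ ha : (vec a : Z) ∈ P,
      ‖L (Φ (vec a)) i - z a i‖ ≤ ε := by
    rw [Filter.eventually_all_finset]
    intro a ha
    have h1 : mk U X (L (Φ (vec a))) = mk U X (z a) := by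
      rw [hL1, hz]
      have haP : (vec a : Z) ∈ P := Submodule.subset_span ⟨a, ha, rfl⟩
      exact hΦ1 ⟨vec a, haP⟩
    have h2 := tendsto_of_mk_eq_mk U X h1
    filter_upwards [h2.eventually_le_const hε] with i hi _
    exact hi
  filter_upwards [hL2, hA] with i hi1 hi2
  let Li : G →L[ℝ] X i := LinearMap.mkContinuous
    { toFun := fun g => L g i
      map_add' := fun g h => by rw [map_add]; rfl
      map_smul' := fun c g => by rw [map_smul]; rfl } (1 + δ) hi1
  have hLi : ‖Li‖ ≤ 1 + δ := LinearMap.mkContinuous_norm_le _ (by positivity) _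
  refine ⟨Li.comp Φ, ?_, ?_⟩
  · calc ‖Li.comp Φ‖ ≤ ‖Li‖ * ‖Φ‖ := ContinuousLinearMap.opNorm_comp_le _ _
      _ ≤ (1 + δ) * (‖t‖ + ε / 2) := by
          gcongr
          exact hΦ2.trans (by gcongr)
      _ = ‖t‖ + ε := by
          rw [hδdef]; field_simp; ring
  · intro a ha
    exact hi2 a ha (Submodule.subset_span ⟨a, ha, rfl⟩)

/-- The patching step: an infinite family `vec` with dense range, indexed by a set of size less
than `κ`, is enough to glue the local operators to a global extension. -/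
theorem exists_extension {I : Type u} (U : Ultrafilter I) {κ : Cardinal.{u}}
    (hci : CountablyIncomplete U) (hgood : IsGood U κ) (X : I → Type u)
    [∀ i, NormedAddCommGroup (X i)] [∀ i, NormedSpace ℝ (X i)]
    (hL : IsLindenstrauss (BanachUltraproduct U X))
    {Z : Type u} [NormedAddCommGroup Z] [NormedSpace ℝ Z] (Y : Submodule ℝ Z)
    (t : Y →L[ℝ] BanachUltraproduct U X) {J : Type u} [Infinite J] (hJ : #J < κ)
    (vec : J → Y) (hvec : DenseRange vec) :
    ∃ T : Z →L[ℝ] BanachUltraproduct U X, (∀ y : Y, T y = t y) ∧ ‖T‖ = ‖t‖ := by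
  classical
  obtain ⟨K, hK1, hK2, hK3⟩ := hci
  have hz : ∀ a : J, ∃ x : lp X ∞, mk U X x = t (vec a) := fun a => mk_surjective U X _
  choose z hz using hz
  -- the antitone map
  let good : Finset J → ∀ i : I, (Z →L[ℝ] X i) → Prop := fun A i R =>
    ‖R‖ ≤ ‖t‖ + 1 / ((A.card : ℝ) + 1) ∧ ∀ a ∈ A, ‖R (vec a) - z a i‖ ≤ 1 / ((A.card : ℝ) + 1)
  let f : Finset J → Set I := fun A => {i | i ∈ K A.card ∧ ∃ R : Z →L[ℝ] X i, good A i R}
  have hf1 : ∀ A, f A ∈ U := by
    intro A
    have h1 : ∀ᶠ i in (U : Filter I), i ∈ K A.card := hK2 A.card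
    have h2 := eventually_exists_operator U X hL Y t vec z hz A
      (ε := 1 / ((A.card : ℝ) + 1)) (by positivity)
    have h3 : ∀ᶠ i in (U : Filter I), i ∈ f A := by
      filter_upwards [h1, h2] with i hi1 hi2
      exact ⟨hi1, hi2⟩
    exact h3
  have hf2 : ∀ A B : Finset J, A ⊆ B → f B ⊆ f A := by
    rintro A B hAB i ⟨hi1, R, hR1, hR2⟩
    have hcard : A.card ≤ B.card := Finset.card_le_card hAB
    have hle : 1 / ((B.card : ℝ) + 1) ≤ 1 / ((A.card : ℝ) + 1) := by
      gcongr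
    exact ⟨hK1 hcard hi1, R, hR1.trans (by gcongr), fun a ha => (hR2 a (hAB ha)).trans hle⟩
  obtain ⟨g, hg1, hg2, hg3⟩ := hgood J hJ f hf1 hf2
  -- membership in `g A` for nonempty `A` is decided by the singletons
  have hgsub : ∀ (A : Finset J) (i : I), i ∈ g A → ∀ a ∈ A, i ∈ g {a} := by
    intro A i hi a ha
    have : A = {a} ∪ A := by
      ext b; simp only [Finset.mem_union, Finset.mem_singleton]
      constructor
      · exact fun h => Or.inr h
      · rintro (rfl | h)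
        · exact ha
        · exact h
    rw [this, hg2] at hi
    exact hi.1
  have hgmem : ∀ (i : I) (A : Finset J), A.Nonempty → (∀ a ∈ A, i ∈ g {a}) → i ∈ g A := by
    intro i A hA
    induction hA using Finset.Nonempty.cons_induction with
    | singleton a => intro h; exact h a (Finset.mem_singleton_self a)
    | cons a s ha hs ih =>
      intro h
      rw [Finset.cons_eq_insert, Finset.insert_eq, hg2]
      exact ⟨h a (Finset.mem_cons_self a s), ih (fun b hb => h b (Finset.mem_cons_of_mem hb))⟩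
  -- the sets `S_i` are finite
  have hfin : ∀ i : I, {a : J | i ∈ g {a}}.Finite := by
    intro i
    by_contra hinf
    have hinf' : {a : J | i ∈ g {a}}.Infinite := hinf
    have hall : ∀ n, i ∈ K n := by
      intro n
      obtain ⟨A, hA1, hA2⟩ := hinf'.exists_subset_card_eq (n + 1)
      have hAne : A.Nonempty := by
        rw [← Finset.card_pos, hA2]; exact Nat.succ_pos n
      have h1 : i ∈ f A := hg3 A (hgmem i A hAne (fun a ha => hA1 ha))
      have h2 : i ∈ K A.card := h1.1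
      rw [hA2] at h2
      exact hK1 (Nat.le_succ n) h2
    have : i ∈ ⋂ n, K n := Set.mem_iInter.mpr hall
    rw [hK3] at this
    exact this
  let B : I → Finset J := fun i => (hfin i).toFinset
  have hB : ∀ i a, a ∈ B i ↔ i ∈ g {a} := fun i a => by simp [B]
  have hBgood : ∀ i, (B i).Nonempty → ∃ R : Z →L[ℝ] X i, good (B i) i R := by
    intro i hi
    have h1 : i ∈ f (B i) := hg3 _ (hgmem i (B i) hi (fun a ha => (hB i a).mp ha))
    exact h1.2
  let R : ∀ i, Z →L[ℝ] X i := fun i => if h : (B i).Nonempty then (hBgood i h).choose else 0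
  have hRgood : ∀ i, (B i).Nonempty → good (B i) i (R i) := by
    intro i hi
    simp only [R, dif_pos hi]
    exact (hBgood i hi).choose_spec
  have hRnorm : ∀ i, ‖R i‖ ≤ ‖t‖ + 1 := by
    intro i
    by_cases hi : (B i).Nonempty
    · refine (hRgood i hi).1.trans ?_
      gcongr
      rw [div_le_one (by positivity)]
      have : (0 : ℝ) ≤ ((B i).card : ℝ) := by positivity
      linarith
    · simp only [R, dif_neg hi, norm_zero]; positivity
  have hBlarge : ∀ n : ℕ, ∀ᶠ i in (U : Filter I), n ≤ (B i).card := by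
    intro n
    obtain ⟨A, hA⟩ := Infinite.exists_subset_card_eq J n
    have h1 : ∀ᶠ i in (U : Filter I), i ∈ g A := hg1 A
    filter_upwards [h1] with i hi
    rw [← hA]
    exact Finset.card_le_card (fun a ha => (hB i a).mpr (hgsub A i hi a ha))
  have hsmall : ∀ ε : ℝ, 0 < ε → ∀ᶠ i in (U : Filter I),
      (B i).Nonempty ∧ 1 / (((B i).card : ℝ) + 1) ≤ ε := by
    intro ε hε
    obtain ⟨n, hn⟩ := exists_nat_one_div_lt hε
    filter_upwards [hBlarge (n + 1)] with i hi
    refine ⟨?_, ?_⟩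
    · rw [← Finset.card_pos]; omega
    · refine le_trans ?_ hn.le
      have : ((n : ℝ) + 1) ≤ ((B i).card : ℝ) + 1 := by
        have h : (((n + 1 : ℕ)) : ℝ) ≤ ((B i).card : ℝ) := by exact_mod_cast hi
        push_cast at h
        linarith
      gcongr
  -- the glued operator into `ℓ_∞(I; X_i)`
  have hmem : ∀ x : Z, (fun i => R i x : PreLp X) ∈ lp X ∞ := by
    intro x
    refine memℓp_infty ⟨(‖t‖ + 1) * ‖x‖, ?_⟩
    rintro _ ⟨i, rfl⟩
    exact ((R i).le_opNorm x).trans (by gcongr; exact hRnorm i)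
  let T0 : Z →ₗ[ℝ] lp X ∞ :=
    { toFun := fun x => ⟨fun i => R i x, hmem x⟩
      map_add' := fun x y => by
        apply Subtype.ext
        funext i
        exact map_add (R i) x y
      map_smul' := fun c x => by
        apply Subtype.ext
        funext i
        exact map_smul (R i) c x }
  have hT0 : ∀ x i, T0 x i = R i x := fun x i => rfl
  have hbound : ∀ x : Z, ‖mk U X (T0 x)‖ ≤ ‖t‖ * ‖x‖ := by
    intro x
    refine le_of_forall_pos_le_add (fun ε hε => ?_)
    have hx1 : 0 < ‖x‖ + 1 := by positivity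
    have hlim := tendsto_norm_mk U X (T0 x)
    refine le_of_tendsto hlim ?_
    filter_upwards [hsmall (ε / (‖x‖ + 1)) (by positivity)] with i hi
    rw [hT0]
    calc ‖R i x‖ ≤ ‖R i‖ * ‖x‖ := (R i).le_opNorm x
      _ ≤ (‖t‖ + ε / (‖x‖ + 1)) * ‖x‖ := by
          gcongr
          exact (hRgood i hi.1).1.trans (add_le_add le_rfl hi.2)
      _ = ‖t‖ * ‖x‖ + ε * (‖x‖ / (‖x‖ + 1)) := by ring
      _ ≤ ‖t‖ * ‖x‖ + ε * 1 := by
          gcongr
          rw [div_le_one hx1]; linarith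
      _ = ‖t‖ * ‖x‖ + ε := by ring
  let T : Z →L[ℝ] BanachUltraproduct U X :=
    LinearMap.mkContinuous ((mk U X).comp T0) ‖t‖ hbound
  have hTle : ‖T‖ ≤ ‖t‖ := LinearMap.mkContinuous_norm_le _ (norm_nonneg t) _
  have hTvec : ∀ a : J, T (vec a) = t (vec a) := by
    intro a
    change mk U X (T0 (vec a)) = t (vec a)
    rw [← hz a]
    refine mk_eq_mk U X ?_
    rw [Metric.tendsto_nhds]
    intro ε hε
    have h1 : ∀ᶠ i in (U : Filter I), i ∈ g {a} := hg1 {a}
    filter_upwards [h1, hsmall (ε / 2) (half_pos hε)] with i hi1 hi2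
    rw [dist_zero_right, norm_norm, hT0]
    have h2 := (hRgood i hi2.1).2 a ((hB i a).mpr hi1)
    linarith [hi2.2]
  have hTY : ∀ y : Y, T y = t y := by
    have h : (fun y : Y => T y) = fun y : Y => t y :=
      hvec.equalizer (T.continuous.comp continuous_subtype_val) t.continuous (funext hTvec)
    exact fun y => congrFun h y
  refine ⟨T, hTY, le_antisymm hTle ?_⟩
  refine ContinuousLinearMap.opNorm_le_bound _ (norm_nonneg T) (fun y => ?_)
  rw [← hTY y]
  exact T.le_opNorm y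

/-- **Theorem of ZFC** (answer to Q1, in the isometric form). Let `κ` be an uncountable cardinal,
`U` a countably incomplete `κ`-good ultrafilter on a set `I` and `(X_i)` a family of normed spaces
whose ultraproduct `[X_i]_U` is a Lindenstrauss space. Then `[X_i]_U` is universally
`(1, κ)`-injective; in particular it is universally `κ`-injective. -/
theorem result (κ : Cardinal.{u}) (hκ : ℵ₀ < κ) {I : Type u} (U : Ultrafilter I)
    (hci : CountablyIncomplete U) (hgood : IsGood U κ) (X : I → Type u)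
    [∀ i, NormedAddCommGroup (X i)] [∀ i, NormedSpace ℝ (X i)]
    (hL : IsLindenstrauss (BanachUltraproduct U X)) :
    UniversallyOneInjective κ (BanachUltraproduct U X) := by
  intro Z _ _ _ Y _ hY t
  have hne : {c : Cardinal.{u} | ∃ S : Set Y, Dense S ∧ #S = c}.Nonempty :=
    ⟨_, Set.univ, dense_univ, rfl⟩
  obtain ⟨S, hS1, hS2⟩ := csInf_mem hne
  have hSκ : #S < κ := by rw [hS2]; exact hY
  let J : Type u := S ⊕ ULift.{u} ℕ
  have hJ : #J < κ := by
    rw [Cardinal.mk_sum, Cardinal.lift_id, Cardinal.lift_id]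
    refine Cardinal.add_lt_of_lt hκ.le hSκ ?_
    simpa using hκ
  have hinf : Infinite J := Sum.infinite_of_right
  let vec : J → Y := Sum.elim (fun s => (s : Y)) (fun _ => 0)
  have hvec : DenseRange vec := by
    refine hS1.mono ?_
    intro s hs
    exact ⟨Sum.inl ⟨s, hs⟩, rfl⟩
  exact exists_extension U hci hgood X hL Y t hJ vec hvec

end Pool.Agent.Results.MP_0564d2_an.UniversalInjectivity
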